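import Pool.Agent.H13.Spec.Lower
import Pool.Agent.H13.Spec.Upper

/-!
# The Gray code coloring of a path power is an optimal strong parity edge-coloring

The definitions `pathPower`, `IsParityWalk`, `IsSpec`, `specNumber`, `graySum`, `grayColoring` are
in `Pool.Agent.H13.Spec.Defs`.

Outline of the proof of the lower bound. A strong parity edge-coloring yields distinct labels
`x_0, …, x_{n-1}` in a field of characteristic two such that the number of colors is at least the
number of differences `x_i + x_j` with `0 < j - i ≤ ℓ`. Let `K = ⌈log₂ n⌉`. If there were fewer than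
`∑_{k<K} min ℓ (2^k)` differences, some nonzero polynomial `f` with exponents `2^k + e`
(`k < K`, `e < min ℓ (2^k)`) would vanish on all of them. In characteristic two
`f(x + y) = ∑_{b<ℓ} (y^b M_b(x) + x^b M_b(y))`, which forces `f(x_i + x_j) = 0` for all `i, j`
(`vanish_all`), and this contradicts the Combinatorial Nullstellensatz (`coeff_zero`).
-/

namespace Pool.Agent.Results.MP_c1651f_co.GrayOptimal

open Pool.Agent.H13.Spec

lemma sum_shift (K : ℕ) (f : ℕ → ℕ) :
    ∑ k ∈ Finset.Icc 1 K, f (k - 1) = ∑ k ∈ Finset.range K, f k := by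
  induction K with
  | zero => simp
  | succ K ih => rw [Finset.sum_Icc_succ_top (by omega), ih, Finset.sum_range_succ]; simp

/-- For all `n, ℓ ≥ 1` the Gray code coloring `φ` is an optimal strong parity edge-coloring of
`P_n^ℓ`, and `p̂(P_n^ℓ) = ∑_{k=1}^{⌈lg n⌉} min {ℓ, 2^{k-1}}`. -/
theorem result (n ℓ : ℕ) (hn : 1 ≤ n) (hℓ : 1 ≤ ℓ) :
    IsSpec (pathPower n ℓ) (grayColoring n) ∧
    (grayColoring n '' (pathPower n ℓ).edgeSet).ncard = specNumber (pathPower n ℓ) ∧
    specNumber (pathPower n ℓ) = ∑ k ∈ Finset.Icc 1 (Nat.clog 2 n), min ℓ (2 ^ (k - 1)) := by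
  classical
  have hspec := grayColoring_isSpec (pathPower n ℓ)
  have hcard : (grayColoring n '' (pathPower n ℓ).edgeSet).ncard =
      ∑ k ∈ Finset.range (Nat.clog 2 n), min ℓ (2 ^ k) :=
    le_antisymm (upper_bound n ℓ) (lower_bound hn hℓ _ hspec)
  have hnum : specNumber (pathPower n ℓ) =
      ∑ k ∈ Finset.range (Nat.clog 2 n), min ℓ (2 ^ k) := by
    -- recolor by natural numbers
    obtain ⟨f, hf⟩ := exists_injective_nat (ℕ →₀ ZMod 2)
    have hmem : ∃ c : Sym2 (Fin n) → ℕ, IsSpec (pathPower n ℓ) c ∧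
        (c '' (pathPower n ℓ).edgeSet).ncard =
          ∑ k ∈ Finset.range (Nat.clog 2 n), min ℓ (2 ^ k) := by
      refine ⟨f ∘ grayColoring n, ?_, ?_⟩
      · intro u v w hw
        apply hspec u v w
        intro a
        have := hw (f a)
        rwa [← List.map_map, List.count_map_of_injective _ f hf] at this
      · rw [Set.image_comp, Set.ncard_image_of_injective _ hf, hcard]
    unfold specNumber
    apply le_antisymm
    · exact Nat.sInf_le hmem
    · refine le_csInf ⟨_, hmem⟩ ?_
      rintro m ⟨c, hc, rfl⟩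
      exact lower_bound hn hℓ c hc
  refine ⟨hspec, by rw [hcard, hnum], ?_⟩
  rw [hnum, sum_shift _ (fun k => min ℓ (2 ^ k))]

end Pool.Agent.Results.MP_c1651f_co.GrayOptimal
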